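import Pool.Agent.H96.JCT.Stmts

/-!
Board jct, row DG1: the winding number of the image of a closed curve under a homeomorphism.
-/

namespace Pool.JCT

open Complex Set Topology Filter

/-- The complex number as a point of the plane. -/
def dg1_pl (w : ℂ) : Pl := (w.re, w.im)

lemma dg1_pl_cont : Continuous dg1_pl := by
  unfold dg1_pl
  exact Complex.continuous_re.prodMk Complex.continuous_im

lemma dg1_pl_ne {w : ℂ} (hw : w ≠ 0) (y : Pl) : y + dg1_pl w ≠ y := by
  intro h
  apply hw
  have h1 : dg1_pl w = 0 := by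
    have := congrArg (fun q => q - y) h
    simpa using this
  have h2 : w.re = 0 := congrArg Prod.fst h1
  have h3 : w.im = 0 := congrArg Prod.snd h1
  exact Complex.ext h2 h3

lemma dg1_circ (s : ℝ) : dg1_pl (exp ((s : ℂ) * I)) = circ 1 s := by
  unfold dg1_pl circ
  rw [Complex.exp_ofReal_mul_I_re, Complex.exp_ofReal_mul_I_im]
  simp

lemma dg1_sub (p y : Pl) : y + dg1_pl (z p - z y) = p := by
  unfold dg1_pl z
  ext <;> simp

lemma dg1_tpi_ne : tpi ≠ 0 := by
  unfold tpi
  simp [Real.pi_ne_zero]

/-- Clamp to the interval. -/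
noncomputable def dg1_cl (a b t : ℝ) : ℝ := max (min a b) (min t (max a b))

lemma dg1_cl_mem (a b t : ℝ) : dg1_cl a b t ∈ uIcc a b := by
  unfold dg1_cl
  rw [Set.uIcc, Set.mem_Icc]
  exact ⟨le_max_left _ _, max_le (min_le_max) (min_le_right _ _)⟩

lemma dg1_cl_eq {a b t : ℝ} (ht : t ∈ uIcc a b) : dg1_cl a b t = t := by
  rw [Set.uIcc, Set.mem_Icc] at ht
  unfold dg1_cl
  rw [min_eq_left ht.2, max_eq_right ht.1]

lemma dg1_cl_cont (a b : ℝ) : Continuous (dg1_cl a b) := by
  unfold dg1_cl
  fun_prop

theorem dg1_thm (h1 : INC_S) (h2 : CLO_S) (h3 : REP_S) (h4 : PER_S) : DG1_S := by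
  intro Ψ y γ a b n hγ hoff hab hinc
  obtain ⟨⟨F, hF⟩, hFu⟩ := h1 γ a b y hγ hoff
  have hFab := hFu F hF
  rw [hinc] at hFab
  have hcontΨγ : Continuous (fun t => Ψ (γ t)) := Ψ.continuous.comp hγ
  have hoffΨ : Off (fun t => Ψ (γ t)) a b (Ψ y) := fun t ht h => hoff t ht (Ψ.injective h)
  rcases eq_or_ne a b with rfl | hne
  · -- degenerate interval
    have hn : n = 0 := by
      have h5 : (n : ℂ) * tpi = 0 := by rw [← hFab]; ring
      rcases mul_eq_zero.1 h5 with h6 | h6
      · exact_mod_cast h6
      · exact absurd h6 dg1_tpi_ne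
    obtain ⟨⟨G, hG⟩, hGu⟩ := h1 (fun t => Ψ (γ t)) a a (Ψ y) hcontΨγ hoffΨ
    have h5 := hGu G hG
    rw [sub_self] at h5
    rw [← h5, hn]
    simp
  · have hba : b - a ≠ 0 := sub_ne_zero.2 hne.symm
    -- the exponent
    set w : ℝ → ℝ → ℂ := fun τ t => (1 - (τ : ℂ)) * F (dg1_cl a b t) +
      (τ : ℂ) * (((n * (2 * Real.pi) * ((t - a) / (b - a)) : ℝ) : ℂ) * I) with hw
    have hFc : Continuous (fun t => F (dg1_cl a b t)) :=
      hF.1.comp_continuous (dg1_cl_cont a b) (dg1_cl_mem a b)
    have hwc : Continuous (Function.uncurry w) := by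
      have h5 : Continuous (fun x : ℝ × ℝ => F (dg1_cl a b x.2)) := hFc.comp continuous_snd
      have h6 : Continuous (fun x : ℝ × ℝ => (x.1 : ℂ)) :=
        Complex.continuous_ofReal.comp continuous_fst
      have h7 : Continuous (fun x : ℝ × ℝ =>
          ((n * (2 * Real.pi) * ((x.2 - a) / (b - a)) : ℝ) : ℂ)) := by
        apply Complex.continuous_ofReal.comp
        fun_prop
      have h8 : Function.uncurry w = fun x : ℝ × ℝ => (1 - (x.1 : ℂ)) * F (dg1_cl a b x.2) +
          (x.1 : ℂ) * (((n * (2 * Real.pi) * ((x.2 - a) / (b - a)) : ℝ) : ℂ) * I) := by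
        funext x
        rfl
      rw [h8]
      exact ((continuous_const.sub h6).mul h5).add (h6.mul (h7.mul continuous_const))
    set H : ℝ → ℝ → Pl := fun τ t => Ψ (y + dg1_pl (exp (w τ t))) with hH
    have hHc : Continuous (Function.uncurry H) := by
      have h8 : Function.uncurry H = fun x : ℝ × ℝ =>
          Ψ (y + dg1_pl (exp (Function.uncurry w x))) := by
        funext x
        rfl
      rw [h8]
      exact Ψ.continuous.comp (continuous_const.add
        (dg1_pl_cont.comp (Complex.continuous_exp.comp hwc)))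
    have hHoff : ∀ τ t, H τ t ≠ Ψ y := fun τ t h =>
      dg1_pl_ne (Complex.exp_ne_zero (w τ t)) y (Ψ.injective h)
    have ha_cl : dg1_cl a b a = a := dg1_cl_eq left_mem_uIcc
    have hb_cl : dg1_cl a b b = b := dg1_cl_eq right_mem_uIcc
    have hclosed : ∀ τ, H τ a = H τ b := by
      intro τ
      have h5 : w τ b = w τ a + n * (2 * Real.pi * I) := by
        rw [hw]
        simp only
        rw [ha_cl, hb_cl]
        have h6 : F b = F a + n * tpi := by rw [← hFab]; ring
        rw [h6, div_self hba, sub_self, zero_div]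
        unfold tpi
        push_cast
        ring
      have h7 : exp (w τ b) = exp (w τ a) := by
        rw [h5, Complex.exp_add, Complex.exp_int_mul_two_pi_mul_I, mul_one]
      rw [hH]
      simp only
      rw [h7]
    have hmain := h2.2 H (fun _ => Ψ y) a b hHc continuous_const
      (fun τ _ t _ => hHoff τ t) (fun τ _ => hclosed τ)
    -- time 0
    have h0 : inc (fun t => Ψ (γ t)) a b (Ψ y) = inc (H 0) a b (Ψ y) := by
      refine h3 (H 0) (fun t => Ψ (γ t)) (fun t => t) a b a b (Ψ y) ?_ hcontΨγ
        continuousOn_id (fun t ht => ht) rfl rfl ?_ (fun t _ => hHoff 0 t)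
      · exact hHc.comp (Continuous.prodMk_right 0)
      · intro t ht
        rw [hH]
        simp only
        congr 1
        have h5 : w 0 t = F t := by
          rw [hw]
          simp only
          rw [dg1_cl_eq ht]
          push_cast
          ring
        rw [h5, hF.2 t ht, dg1_sub]
    -- time 1
    set g : ℝ → Pl := fun t => Ψ (y + circ 1 t) with hg
    have hgc : Continuous g := by
      apply Ψ.continuous.comp
      apply continuous_const.add
      unfold circ
      fun_prop
    have hcirc_ne : ∀ t, y + circ 1 t ≠ y := by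
      intro t
      rw [← dg1_circ]
      exact dg1_pl_ne (Complex.exp_ne_zero _) y
    have hgoff : ∀ t, g t ≠ Ψ y := fun t h => hcirc_ne t (Ψ.injective h)
    have hper : ∀ t, g (t + 2 * Real.pi) = g t := by
      intro t
      rw [hg]
      simp only
      unfold circ
      rw [Real.cos_add_two_pi, Real.sin_add_two_pi]
    have h1' : inc (H 1) a b (Ψ y) = inc g 0 (n * (2 * Real.pi)) (Ψ y) := by
      refine h3 g (H 1) (fun t => n * (2 * Real.pi) * ((t - a) / (b - a))) a b 0
        (n * (2 * Real.pi)) (Ψ y) hgc ?_ ?_ ?_ ?_ ?_ ?_ (fun t _ => hgoff t)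
      · exact hHc.comp (Continuous.prodMk_right 1)
      · apply Continuous.continuousOn
        fun_prop
      · intro t ht
        have hs : (t - a) / (b - a) ∈ Icc (0 : ℝ) 1 := by
          rcases lt_or_gt_of_ne hne with hlt | hlt
          · rw [uIcc_of_le hlt.le, mem_Icc] at ht
            have h5 : 0 < b - a := by linarith
            rw [mem_Icc, le_div_iff₀ h5, div_le_iff₀ h5]
            constructor <;> linarith [ht.1, ht.2]
          · rw [uIcc_of_ge hlt.le, mem_Icc] at ht
            have h5 : b - a < 0 := by linarith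
            rw [mem_Icc, le_div_iff_of_neg h5, div_le_iff_of_neg h5]
            constructor <;> linarith [ht.1, ht.2]
        rw [mem_Icc] at hs
        generalize (t - a) / (b - a) = s at hs ⊢
        generalize (n : ℝ) * (2 * Real.pi) = c
        rcases le_total 0 c with hc | hc
        · rw [uIcc_of_le hc, mem_Icc]
          constructor <;> nlinarith [hs.1, hs.2]
        · rw [uIcc_of_ge hc, mem_Icc]
          constructor <;> nlinarith [hs.1, hs.2]
      · simp
      · rw [div_self hba, mul_one]
      · intro t _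
        rw [hH, hg]
        simp only
        congr 2
        have h5 : w 1 t = ((n * (2 * Real.pi) * ((t - a) / (b - a)) : ℝ) : ℂ) * I := by
          rw [hw]
          simp only
          push_cast
          ring
        rw [h5, dg1_circ]
    rw [h0, hmain, h1', h4 g (Ψ y) n hgc hper hgoff]

end Pool.JCT
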