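import Pool.Agent.H96.JCT.Stmts

/-!
Board jct, row DG2: a homeomorphism of the plane has local degree 1 or -1.
-/

namespace Pool.JCT

open Complex Set Topology Filter

lemma dg2_circ_per (ε : ℝ) : circ ε 0 = circ ε (2 * Real.pi) := by
  unfold circ
  simp

lemma dg2_circ_cont (ε : ℝ) : Continuous (circ ε) := by
  unfold circ
  fun_prop

lemma dg2_circ_sq (r t : ℝ) : (circ r t).1 ^ 2 + (circ r t).2 ^ 2 = r ^ 2 := by
  unfold circ
  have := Real.sin_sq_add_cos_sq t
  simp only
  nlinarith [this]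

lemma dg2_circ_ne (t : ℝ) (y : Pl) : y + circ 1 t ≠ y := by
  intro h
  have h1 : circ 1 t = 0 := by
    have := congrArg (fun q => q - y) h
    simpa using this
  have h2 := dg2_circ_sq 1 t
  rw [h1] at h2
  simp at h2

/-- The branch `i t`. -/
lemma dg2_turn (h1 : INC_S) (y : Pl) :
    inc (fun t => y + circ 1 t) 0 (2 * Real.pi) y = tpi := by
  have hc : Continuous (fun t => y + circ 1 t) := continuous_const.add (dg2_circ_cont 1)
  have hoff : Off (fun t => y + circ 1 t) 0 (2 * Real.pi) y := fun t _ => dg2_circ_ne t y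
  have hL : Lift (fun t => y + circ 1 t) 0 (2 * Real.pi) y (fun t => (t : ℂ) * I) := by
    refine ⟨?_, ?_⟩
    · apply Continuous.continuousOn
      exact Complex.continuous_ofReal.mul continuous_const
    · intro t _
      apply Complex.ext
      · rw [Complex.exp_ofReal_mul_I_re]
        simp [z, circ]
      · rw [Complex.exp_ofReal_mul_I_im]
        simp [z, circ]
  have h2 := (h1 _ 0 (2 * Real.pi) y hc hoff).2 _ hL
  rw [← h2]
  unfold tpi
  push_cast
  ring

theorem dg2_thm (h1 : INC_S) (h2 : CLO_S) (h3 : DG1_S) : DG2_S := by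
  intro Ψ
  have hc1 : Continuous (fun t => Ψ (circ 1 t)) := Ψ.continuous.comp (dg2_circ_cont 1)
  have hne1 : ∀ t, circ 1 t ≠ (0 : Pl) := by
    intro t h
    apply dg2_circ_ne t 0
    rw [zero_add]
    exact h
  have hoff1 : Off (fun t => Ψ (circ 1 t)) 0 (2 * Real.pi) (Ψ 0) :=
    fun t _ h => hne1 t (Ψ.injective h)
  obtain ⟨D, hD⟩ := h2.1 _ 0 (2 * Real.pi) (Ψ 0) hc1 hoff1
    (congrArg Ψ (dg2_circ_per 1))
  refine ⟨D, ?_, ?_⟩
  · -- the degree is a unit
    set γ : ℝ → Pl := fun t => Ψ.symm (Ψ 0 + circ 1 t) with hγ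
    have hγc : Continuous γ :=
      Ψ.symm.continuous.comp (continuous_const.add (dg2_circ_cont 1))
    have hγne : ∀ t, γ t ≠ 0 := by
      intro t h
      apply dg2_circ_ne t (Ψ 0)
      have h4 : Ψ (γ t) = Ψ 0 := by rw [h]
      rw [hγ] at h4
      simpa using h4
    have hγoff : Off γ 0 (2 * Real.pi) 0 := fun t _ => hγne t
    have hγper : γ 0 = γ (2 * Real.pi) :=
      congrArg (fun q => Ψ.symm (Ψ 0 + q)) (dg2_circ_per 1)
    obtain ⟨n, hn⟩ := h2.1 γ 0 (2 * Real.pi) 0 hγc hγoff hγper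
    have h4 := h3 Ψ 0 γ 0 (2 * Real.pi) n hγc hγoff hγper hn
    have h5 : (fun t => Ψ (γ t)) = fun t => Ψ 0 + circ 1 t := by
      funext t
      rw [hγ]
      simp
    have h6 : (fun t => Ψ (0 + circ 1 t)) = fun t => Ψ (circ 1 t) := by
      funext t
      rw [zero_add]
    rw [h5, h6, dg2_turn h1, hD] at h4
    have htpi : tpi ≠ 0 := by
      unfold tpi
      simp [Real.pi_ne_zero]
    have h7 : ((n * D : ℤ) : ℂ) = 1 := by
      have h8 : ((n : ℂ) * D) * tpi = 1 * tpi := by rw [one_mul, mul_assoc]; exact h4.symm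
      have h9 := mul_right_cancel₀ htpi h8
      push_cast
      exact h9
    have h8 : n * D = 1 := by exact_mod_cast h7
    have h9 : IsUnit D := IsUnit.of_mul_eq_one n (by rw [mul_comm]; exact h8)
    exact Int.isUnit_iff.1 h9
  · intro ε hε p hp
    set H : ℝ → ℝ → Pl := fun τ t => Ψ (circ ((1 - τ) * ε + τ) t) with hH
    set P : ℝ → Pl := fun τ => Ψ ((1 - τ) • p) with hP
    have hHc : Continuous (Function.uncurry H) := by
      have h4 : Function.uncurry H = fun x : ℝ × ℝ => Ψ (circ ((1 - x.1) * ε + x.1) x.2) := by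
        funext x
        rfl
      rw [h4]
      apply Ψ.continuous.comp
      unfold circ
      fun_prop
    have hPc : Continuous P := by
      rw [hP]
      apply Ψ.continuous.comp
      fun_prop
    have hoff : ∀ τ ∈ Icc (0 : ℝ) 1, Off (H τ) 0 (2 * Real.pi) (P τ) := by
      intro τ hτ t _ h
      rw [mem_Icc] at hτ
      have h4 : circ ((1 - τ) * ε + τ) t = (1 - τ) • p := Ψ.injective h
      have h5 := dg2_circ_sq ((1 - τ) * ε + τ) t
      rw [h4] at h5
      simp only [Prod.smul_fst, Prod.smul_snd, smul_eq_mul] at h5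
      unfold Disc at hp
      have h6 : (1 - τ) ^ 2 * (p.1 ^ 2 + p.2 ^ 2) = ((1 - τ) * ε + τ) ^ 2 := by
        rw [← h5]; ring
      have h7 : 0 ≤ 1 - τ := by linarith [hτ.2]
      rcases eq_or_lt_of_le h7 with h8 | h8
      · rw [← h8] at h6
        have h9 : τ = 1 := by linarith
        rw [h9] at h6
        norm_num at h6
      · have h9 : (1 - τ) ^ 2 * (p.1 ^ 2 + p.2 ^ 2) < (1 - τ) ^ 2 * ε ^ 2 :=
          mul_lt_mul_of_pos_left hp (by positivity)
        have h10 : (1 - τ) ^ 2 * ε ^ 2 ≤ ((1 - τ) * ε + τ) ^ 2 := by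
          have h11 : 0 ≤ (1 - τ) * ε := mul_nonneg h7 hε.le
          nlinarith [hτ.1]
        linarith
    have hmain := h2.2 H P 0 (2 * Real.pi) hHc hPc hoff
      (fun τ _ => congrArg Ψ (dg2_circ_per _))
    have e0 : H 0 = fun t => Ψ (circ ε t) := by
      funext t
      rw [hH]
      simp
    have e1 : H 1 = fun t => Ψ (circ 1 t) := by
      funext t
      rw [hH]
      simp
    have p0 : P 0 = Ψ p := by
      rw [hP]
      simp
    have p1 : P 1 = Ψ 0 := by
      rw [hP]
      simp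
    rw [e0, e1, p0, p1] at hmain
    rw [hmain, hD]

end Pool.JCT
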